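import Pool.Agent.Lib.MP_a08d7f_lc.Poly
import Pool.Agent.Lib.MP_a08d7f_lc.Encoding
import Pool.Agent.Lib.CookLevin.Hard

/-!
# Deciding whether a consistent path system is reducible is NP-hard

Every language in NP reduces in polynomial time to the problem whether a consistent path
system, given with its graph and the explicit list of its paths, has a reduction.
-/

namespace Pool.Agent.Results.MP_a08d7f_lc.NPHard

open Pool.Agent.PolyTime Pool.Agent.PathSys Pool.Agent.CookLevin

/-- The problem whether a consistent path system has a reduction is NP-hard, for an injective
encoding of the consistent path systems which lists the graph and all paths. -/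
theorem result :
    Function.Injective (encode : CPS → List Bool) ∧
    NPHard (fun S : CPS => ¬ S.Irreducible) :=
  ⟨encode_injective, NPHard.of_sat3 PT_system sat_iff⟩

end Pool.Agent.Results.MP_a08d7f_lc.NPHard
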